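import Pool.Agent.H261R3.LN.UStmts

/-! Project LM, task U1: the projection of the universal covering is a locally isometric
covering. -/

set_option autoImplicit false

namespace Pool.Agent.H125R3.LN

open Pool.Agent.H261R3.LN
open Pool.Agent.H261R3.LH (IsLNR)

/-- Fibres with the discrete topology. -/
def UFib {S : Type} [MetricSpace S] (p y : S) : Type := Path.Homotopic.Quotient p y

instance {S : Type} [MetricSpace S] (p y : S) : TopologicalSpace (UFib p y) := ⊥
instance {S : Type} [MetricSpace S] (p y : S) : DiscreteTopology (UFib p y) := ⟨rfl⟩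

theorem u1_move {S : Type} [MetricSpace S] {ε : ℝ} (L : LocSeg S ε) {p u u' y : S}
    (c : Path.Homotopic.Quotient p u) (h1 : dist u u' < ε) (h2 : dist u' y < ε)
    (h3 : dist u y < ε) :
    (c.trans (L.seg u u')).trans (L.seg u' y) = c.trans (L.seg u y) := by
  rw [q_trans_assoc, L.trans _ _ _ h1 h2 h3]

theorem u1_cancel {S : Type} [MetricSpace S] {ε : ℝ} (hε : 0 < ε) (L : LocSeg S ε) {p u y : S}
    (c : Path.Homotopic.Quotient p y) (h1 : dist u y < ε) :
    (c.trans (L.seg y u)).trans (L.seg u y) = c := by
  rw [u1_move L c (by rw [dist_comm]; exact h1) h1 (by rw [dist_self]; exact hε), L.refl,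
    q_trans_refl]

theorem taskU1 : TaskU1 := by
  intro S _ _ _ _ ε hε L p
  let _ := ucMetric L hε p
  have hdist : ∀ a b : UC p, dist a b = ucDist L a b := fun a b => rfl
  have key : ∀ a b : UC p, dist a b < ε / 4 →
      dist a.1 b.1 = dist a b ∧ a.2.trans (L.seg a.1 b.1) = b.2 := by
    intro a b h
    rw [hdist] at h ⊢
    unfold ucDist at h ⊢
    split_ifs at h ⊢ with h1
    · exact ⟨rfl, h1.2⟩
    · exact absurd h (lt_irrefl _)
  have key2 : ∀ a b : UC p, dist a.1 b.1 < ε / 4 → a.2.trans (L.seg a.1 b.1) = b.2 →
      dist a b = dist a.1 b.1 := by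
    intro a b h1 h2
    rw [hdist]
    unfold ucDist
    rw [if_pos ⟨h1, h2⟩]
  have hcont : Continuous (ucProj p) := by
    rw [Metric.continuous_iff]
    intro b δ hδ
    refine ⟨min δ (ε / 4), by positivity, fun a ha => ?_⟩
    have h1 := (key a b (lt_of_lt_of_le ha (min_le_right _ _))).1
    show dist a.1 b.1 < δ
    rw [h1]
    exact lt_of_lt_of_le ha (min_le_left _ _)
  refine ⟨?_, ?_, ε / 4, by positivity, fun a b h => (key a b h).1⟩
  · intro y
    have hev : IsEvenlyCovered (ucProj p) y (UFib p y) := by
      refine ⟨inferInstance, Metric.ball y (ε / 16), Metric.mem_ball_self (by positivity),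
        Metric.isOpen_ball, Metric.isOpen_ball.preimage hcont, ?_⟩
      let U := Metric.ball y (ε / 16)
      have hU : ∀ u ∈ U, dist u y < ε / 16 := fun u hu => hu
      let toF : ucProj p ⁻¹' U → U × UFib p y := fun e =>
        (⟨ucProj p e.1, e.2⟩, Path.Homotopic.Quotient.trans e.1.2 (L.seg e.1.1 y))
      let invF : U × UFib p y → ucProj p ⁻¹' U := fun x =>
        ⟨⟨x.1.1, Path.Homotopic.Quotient.trans x.2 (L.seg y x.1.1)⟩, x.1.2⟩
      have hl : Function.LeftInverse invF toF := by
        rintro ⟨⟨u, c⟩, hu⟩
        have hu' : dist u y < ε / 16 := hu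
        have h1 : (Path.Homotopic.Quotient.trans c (L.seg u y)).trans (L.seg y u) = c := by
          rw [q_trans_assoc, L.trans _ _ _ (by linarith) (by rw [dist_comm]; linarith)
            (by rw [dist_self]; exact hε), L.refl, q_trans_refl]
        apply Subtype.ext
        show (⟨u, (Path.Homotopic.Quotient.trans c (L.seg u y)).trans (L.seg y u)⟩ : UC p) = ⟨u, c⟩
        rw [h1]
      have hr : Function.RightInverse invF toF := by
        rintro ⟨⟨u, hu⟩, c⟩
        have hu' : dist u y < ε / 16 := hu
        refine Prod.ext rfl ?_
        exact u1_cancel hε L (c : Path.Homotopic.Quotient p y) (by linarith)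
      have hc1 : Continuous toF := by
        apply Continuous.prodMk
        · exact Continuous.subtype_mk (hcont.comp continuous_subtype_val) _
        · apply IsLocallyConstant.continuous
          refine (IsLocallyConstant.iff_eventually_eq _).2 fun e => ?_
          have : ∀ᶠ e' in nhds e, dist e' e < ε / 4 := Metric.ball_mem_nhds _ (by positivity)
          filter_upwards [this] with e' he'
          have h1 := (key e.1 e'.1 (by rw [dist_comm]; exact he'))
          have hu1 : dist e.1.1 y < ε / 16 := e.2
          have hu2 : dist e'.1.1 y < ε / 16 := e'.2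
          have h2 : dist e.1.1 e'.1.1 < ε / 4 := by
            rw [h1.1, dist_comm]; exact he'
          have h5 := u1_move L e.1.2 (u' := e'.1.1) (y := y) (by linarith) (by linarith)
            (by linarith)
          rw [h1.2] at h5
          exact h5
      have hc2 : Continuous invF := by
        rw [continuous_prod_of_discrete_right]
        intro c
        rw [Metric.continuous_iff]
        intro b δ hδ
        refine ⟨δ, hδ, fun a ha => ?_⟩
        have hu1 : dist a.1 y < ε / 16 := a.2
        have hu2 : dist b.1 y < ε / 16 := b.2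
        have h3 : dist a.1 b.1 < ε / 4 := by
          have := dist_triangle_right a.1 b.1 y
          linarith
        have h4 : dist (invF (a, c)).1 (invF (b, c)).1 = dist a.1 b.1 := by
          apply key2
          · exact h3
          · exact u1_move L (c : Path.Homotopic.Quotient p y) (u' := a.1) (y := b.1)
              (by rw [dist_comm]; exact lt_trans hu1 (by linarith))
              (lt_trans h3 (by linarith)) (by rw [dist_comm]; exact lt_trans hu2 (by linarith))
        show dist (invF (a, c)).1 (invF (b, c)).1 < δ
        rw [h4]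
        exact ha
      exact ⟨⟨⟨toF, invF, hl, hr⟩, hc1, hc2⟩, fun x => rfl⟩
    exact hev.to_isEvenlyCovered_preimage
  · intro y
    exact ⟨⟨y, Path.Homotopic.Quotient.mk (PathConnectedSpace.somePath p y)⟩, rfl⟩

end Pool.Agent.H125R3.LN
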